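import Pool.Agent.helper99.ZQ.Spec

/-!
Row ACM of project zq: absolute continuity of almost every projection.
-/

set_option autoImplicit false
set_option linter.unusedVariables false

namespace Pool.Agent.ZQ

open Finset
open Pool.Agent.helper32.Cant
open Pool.Agent.GA (nrm chi ch St sg flp Psi rc ph pot rpot far nc gf ncs gfs good mj om pick pat et kap mult)
open Pool.Agent.ZR
open Pool.Agent.ZP
open scoped ENNReal

noncomputable section

/-- The projection with the direction `c`. -/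
def ACM_f (q : ℝ × (ℝ × ℝ)) : ℝ := q.2.1 + q.2.2 * (q.1 - 1 / 2)

theorem ACM_f_meas : Measurable ACM_f := by
  unfold ACM_f
  fun_prop

/-- The kernel of the projections. -/
def ACM_kap (ν : MeasureTheory.Measure (ℝ × ℝ)) : ProbabilityTheory.Kernel ℝ ℝ :=
  (ProbabilityTheory.Kernel.prod ProbabilityTheory.Kernel.id (ProbabilityTheory.Kernel.const ℝ ν)).map ACM_f

theorem ACM_kap_apply (ν : MeasureTheory.Measure (ℝ × ℝ)) [MeasureTheory.IsFiniteMeasure ν] (c : ℝ) :
    ACM_kap ν c = ν.map (fun p : ℝ × ℝ => p.1 + p.2 * (c - 1 / 2)) := by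
  unfold ACM_kap
  rw [ProbabilityTheory.Kernel.map_apply _ ACM_f_meas, ProbabilityTheory.Kernel.prod_apply,
    ProbabilityTheory.Kernel.id_apply, ProbabilityTheory.Kernel.const_apply,
    MeasureTheory.Measure.dirac_prod, MeasureTheory.Measure.map_map ACM_f_meas measurable_prodMk_left]
  rfl

/-- Fubini for the set of pairs (direction, point). -/
theorem ACM_fub (μ : MeasureTheory.Measure ℝ) (ν : MeasureTheory.Measure (ℝ × ℝ)) [MeasureTheory.SFinite μ]
    [MeasureTheory.SFinite ν] (E : Set (ℝ × (ℝ × ℝ))) (hE : MeasurableSet E)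
    (h : ∀ᵐ p ∂ν, μ {c | (c, p) ∈ E} = 0) : ∀ᵐ c ∂μ, ν {p | (c, p) ∈ E} = 0 := by
  have h1 : μ.prod ν E = 0 := by
    rw [MeasureTheory.Measure.prod_apply_symm hE]
    have h2 : (fun y : ℝ × ℝ => μ ((fun x => (x, y)) ⁻¹' E)) =ᵐ[ν] fun _ => 0 := h
    rw [MeasureTheory.lintegral_congr_ae h2]
    simp
  exact (MeasureTheory.Measure.measure_prod_null hE).1 h1

/-- Row ACM. -/
theorem ACM (hFI4 : FI4_stmt) (hFRM : FRM_stmt) (hCOI : COI_stmt) : ACM_stmt := by
  intro ν hν s A hs hF hp
  have := hν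
  obtain ⟨-, hcm, -⟩ := hCOI
  have := hcm
  have hk : ProbabilityTheory.IsFiniteKernel (ACM_kap ν) := by
    unfold ACM_kap
    infer_instance
  set η : ProbabilityTheory.Kernel ℝ ℝ := ProbabilityTheory.Kernel.const ℝ (ProbabilityTheory.gaussianReal 0 1) with hη
  set D : Set (ℝ × ℝ) := ProbabilityTheory.Kernel.mutuallySingularSet (ACM_kap ν) η with hD
  have hDm : MeasurableSet D := ProbabilityTheory.Kernel.measurableSet_mutuallySingularSet _ _
  have hsl : ∀ c : ℝ, Prod.mk c ⁻¹' D = ProbabilityTheory.Kernel.mutuallySingularSetSlice (ACM_kap ν) η c :=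
    fun c => rfl
  have hvol : ∀ c : ℝ, MeasureTheory.volume (Prod.mk c ⁻¹' D) = 0 := by
    intro c
    have h1 : η c (ProbabilityTheory.Kernel.mutuallySingularSetSlice (ACM_kap ν) η c) = 0 :=
      ProbabilityTheory.Kernel.measure_mutuallySingularSetSlice _ _ c
    rw [hη, ProbabilityTheory.Kernel.const_apply] at h1
    rw [hsl]
    exact ProbabilityTheory.gaussianReal_absolutelyContinuous' 0 one_ne_zero h1
  have hD0 : (cmu.prod MeasureTheory.volume) D = 0 := by
    rw [MeasureTheory.Measure.measure_prod_null hDm]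
    exact Filter.Eventually.of_forall hvol
  have h1 := hFI4 D hD0
  have h2 := hFRM (2 * 10 ^ 14) s A (by norm_num) hs ν hF _ h1
  have h3 : ∀ᵐ p ∂ν, cmu (Ln D p.1 p.2) = 0 := by
    rw [MeasureTheory.ae_iff]
    refine MeasureTheory.measure_mono_null ?_ (MeasureTheory.measure_union_null h2 hp)
    intro p hp'
    by_cases h : 0 < p.2
    · exact Or.inl ⟨h, hp'⟩
    · exact Or.inr (not_lt.1 h)
  set E : Set (ℝ × (ℝ × ℝ)) := (fun q : ℝ × (ℝ × ℝ) => (q.1, ACM_f q)) ⁻¹' D with hE
  have hEm : MeasurableSet E := (measurable_fst.prodMk ACM_f_meas) hDm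
  have h4 : ∀ᵐ c ∂cmu, ν {p | (c, p) ∈ E} = 0 := by
    refine ACM_fub cmu ν E hEm ?_
    filter_upwards [h3] with p hp'
    exact hp'
  filter_upwards [h4] with c hc
  have hm : Measurable (fun p : ℝ × ℝ => p.1 + p.2 * (c - 1 / 2)) := by fun_prop
  have h5 : ACM_kap ν c (ProbabilityTheory.Kernel.mutuallySingularSetSlice (ACM_kap ν) η c) = 0 := by
    rw [ACM_kap_apply, MeasureTheory.Measure.map_apply hm
      (ProbabilityTheory.Kernel.measurableSet_mutuallySingularSetSlice _ _ c)]
    exact hc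
  have h6 := (ProbabilityTheory.Kernel.singularPart_eq_zero_iff_measure_eq_zero _ _ c).2 h5
  have h7 := (ProbabilityTheory.Kernel.singularPart_eq_zero_iff_absolutelyContinuous _ _ c).1 h6
  rw [← ACM_kap_apply]
  refine h7.trans ?_
  rw [hη, ProbabilityTheory.Kernel.const_apply]
  exact ProbabilityTheory.gaussianReal_absolutelyContinuous 0 one_ne_zero

end

end Pool.Agent.ZQ
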